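import Pool.Agent.W650.HL.Stm

set_option autoImplicit false

namespace Pool.Agent.W313.HL

open Finset Pool.W650.HL

variable {r : ℕ}

lemma selfadj (a f g : Fin r → ℝ) :
    ∑ i, a i * (Mop a f i * g i) = ∑ i, a i * (f i * Mop a g i) := by
  have h1 : ∑ i, a i * (Mop a f i * g i)
      = (∑ j, a j * f j) * (∑ j, a j * g j) - ∑ i, a i ^ 2 * f i * g i := by
    rw [Finset.mul_sum, ← Finset.sum_sub_distrib]
    refine Finset.sum_congr rfl fun i _ => ?_
    simp only [Mop]
    ring
  have h2 : ∑ i, a i * (f i * Mop a g i)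
      = (∑ j, a j * f j) * (∑ j, a j * g j) - ∑ i, a i ^ 2 * f i * g i := by
    rw [mul_comm (∑ j, a j * f j), Finset.mul_sum, ← Finset.sum_sub_distrib]
    refine Finset.sum_congr rfl fun i _ => ?_
    simp only [Mop]
    ring
  rw [h1, h2]

lemma U_succ (a : Fin r → ℝ) (k : ℕ) : U a (k + 1) = Mop a (U a k) := by
  unfold U
  exact Function.iterate_succ_apply' (Mop a) k _

lemma selfadj_iter (a f g : Fin r → ℝ) (m : ℕ) :
    ∑ i, a i * ((Mop a)^[m] f i * g i) = ∑ i, a i * (f i * (Mop a)^[m] g i) := by
  induction m generalizing f g with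
  | zero => rfl
  | succ m ih =>
    rw [Function.iterate_succ_apply', selfadj, ih, Function.iterate_succ_apply]

theorem self : SELF := by
  intro r a k l
  induction k generalizing l with
  | zero =>
    rw [Nat.zero_add]
    refine Finset.sum_congr rfl fun i _ => ?_
    simp [U]
  | succ k ih =>
    rw [U_succ, selfadj, ← U_succ, ih (l + 1)]
    congr 1
    ext i
    rw [show k + (l + 1) = k + 1 + l by ring]

lemma kernel (a : Fin r → ℝ) (ha : ∀ i, 0 < a i) (m : ℕ) :
    ∃ N : Fin r → Fin r → ℝ, (∀ i j, 0 ≤ N i j) ∧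
      ∀ (f : Fin r → ℝ) i, (Mop a)^[m] f i = ∑ j, N i j * a j * f j := by
  induction m with
  | zero =>
    refine ⟨fun i j => if i = j then (a i)⁻¹ else 0, ?_, ?_⟩
    · intro i j
      dsimp only
      split_ifs
      · exact (inv_pos.2 (ha i)).le
      · exact le_rfl
    · intro f i
      rw [Finset.sum_eq_single i]
      · simp [(ha i).ne']
      · intro b _ hb
        simp [Ne.symm hb]
      · simp
  | succ m ih =>
    obtain ⟨N, hN, h⟩ := ih
    refine ⟨fun i j => ∑ k, if k = i then 0 else a k * N k j, ?_, ?_⟩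
    · intro i j
      refine Finset.sum_nonneg fun k _ => ?_
      split_ifs
      · exact le_rfl
      · exact mul_nonneg (ha k).le (hN k j)
    · intro f i
      rw [Function.iterate_succ_apply']
      simp only [Mop, h]
      have h1 : ∑ j, (∑ k, if k = i then 0 else a k * N k j) * a j * f j
          = ∑ k, if k = i then 0 else a k * ∑ j, N k j * a j * f j := by
        simp only [Finset.sum_mul]
        rw [Finset.sum_comm]
        refine Finset.sum_congr rfl fun k _ => ?_
        split_ifs
        · simp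
        · rw [Finset.mul_sum]
          refine Finset.sum_congr rfl fun j _ => ?_
          ring
      rw [h1]
      have h2 : ∀ k, (if k = i then (0 : ℝ) else a k * ∑ j, N k j * a j * f j)
          = a k * (∑ j, N k j * a j * f j)
            - (if k = i then a k * ∑ j, N k j * a j * f j else 0) := by
        intro k
        split_ifs <;> simp
      simp only [h2, Finset.sum_sub_distrib, Finset.sum_ite_eq', Finset.mem_univ, if_true]

lemma kernel_symm (a : Fin r → ℝ) (ha : ∀ i, 0 < a i) (m : ℕ) (N : Fin r → Fin r → ℝ)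
    (h : ∀ (f : Fin r → ℝ) i, (Mop a)^[m] f i = ∑ j, N i j * a j * f j) (i j : Fin r) :
    N i j = N j i := by
  have h1 := selfadj_iter a (fun t => if t = j then 1 else 0) (fun t => if t = i then 1 else 0) m
  simp only [h] at h1
  simp only [mul_ite, mul_one, mul_zero, ite_mul, one_mul, zero_mul, Finset.sum_ite_eq',
    Finset.mem_univ, if_true] at h1
  have h2 := (ha i).ne'
  have h3 := (ha j).ne'
  have h4 : a i * a j * N i j = a i * a j * N j i := by linarith
  exact mul_left_cancel₀ (mul_ne_zero h2 h3) h4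

/-- the invariant -/
def Inv (a f : Fin r → ℝ) : Prop :=
  (∀ i, 0 ≤ f i) ∧ ∀ i j, a j ≤ a i → f i ≤ f j ∧ a j * f j ≤ a i * f i

lemma Inv.mop {a f : Fin r → ℝ} (ha : ∀ i, 0 < a i) (h : Inv a f) : Inv a (Mop a f) := by
  have hs : ∀ i, a i * f i ≤ ∑ j, a j * f j := fun i =>
    Finset.single_le_sum (f := fun j => a j * f j)
      (fun j _ => mul_nonneg (ha j).le (h.1 j)) (Finset.mem_univ i)
  refine ⟨fun i => ?_, fun i j hij => ⟨?_, ?_⟩⟩
  · simp only [Mop]
    linarith [hs i]
  · simp only [Mop]
    linarith [(h.2 i j hij).2]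
  · rcases eq_or_ne i j with rfl | hne
    · exact le_rfl
    · have h2 : a i * f i + a j * f j ≤ ∑ j, a j * f j := by
        have h3 := Finset.sum_le_sum_of_subset_of_nonneg (f := fun t => a t * f t)
          (Finset.subset_univ ({i, j} : Finset (Fin r)))
          (fun t _ _ => mul_nonneg (ha t).le (h.1 t))
        rwa [Finset.sum_pair hne] at h3
      have h4 := (h.2 i j hij).1
      have h5 : (a i + a j) * f i ≤ a i * f i + a j * f j := by
        nlinarith [ha j]
      have h6 : (a i - a j) * ((a i + a j) * f i) ≤ (a i - a j) * ∑ j, a j * f j :=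
        mul_le_mul_of_nonneg_left (h5.trans h2) (sub_nonneg.2 hij)
      have h7 : a j ^ 2 * f i ≤ a j ^ 2 * f j := mul_le_mul_of_nonneg_left h4 (sq_nonneg _)
      simp only [Mop]
      nlinarith

lemma inv_U (a : Fin r → ℝ) (ha : ∀ i, 0 < a i) (k : ℕ) : Inv a (U a k) := by
  induction k with
  | zero =>
    refine ⟨fun i => by simp [U], fun i j hij => ⟨by simp [U], ?_⟩⟩
    simpa [U] using hij
  | succ k ih =>
    rw [U_succ]
    exact ih.mop ha

lemma Inv.mul_nonneg {a f g : Fin r → ℝ} (hf : Inv a f) (hg : Inv a g) (i j : Fin r) :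
    0 ≤ (f i - f j) * (g i - g j) := by
  rcases le_total (a j) (a i) with h | h
  · exact mul_nonneg_of_nonpos_of_nonpos (sub_nonpos.2 (hf.2 i j h).1)
      (sub_nonpos.2 (hg.2 i j h).1)
  · exact _root_.mul_nonneg (sub_nonneg.2 (hf.2 j i h).1) (sub_nonneg.2 (hg.2 j i h).1)

theorem kc3 : KC3 := by
  intro r a ha _ k l m
  obtain ⟨N, hN, h⟩ := kernel a ha m
  have hsym := kernel_symm a ha m N h
  have e1 : U a (l + m) = (Mop a)^[m] (U a l) := by
    unfold U
    rw [add_comm l m, Function.iterate_add_apply]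
  have e2 : ∑ i, a i * U a (k + l + m) i
      = ∑ i, ∑ j, (a i * a j * N i j) * (U a k i * U a l j) := by
    rw [add_assoc, ← self r a k (l + m), e1]
    refine Finset.sum_congr rfl fun i _ => ?_
    rw [h, Finset.mul_sum, Finset.mul_sum]
    refine Finset.sum_congr rfl fun j _ => ?_
    ring
  have e3 : ∑ i, a i * (U a k i * U a l i * U a m i)
      = ∑ i, ∑ j, (a i * a j * N i j) * (U a k i * U a l i) := by
    refine Finset.sum_congr rfl fun i _ => ?_
    have : U a m i = ∑ j, N i j * a j * 1 := h (fun _ => 1) i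
    rw [this, Finset.mul_sum, Finset.mul_sum]
    refine Finset.sum_congr rfl fun j _ => ?_
    ring
  have e4 : ∑ i, ∑ j, (a i * a j * N i j) * (U a k i * U a l i - U a k i * U a l j)
      = ∑ i, ∑ j, (a i * a j * N i j) * (U a k j * U a l j - U a k j * U a l i) := by
    rw [Finset.sum_comm]
    refine Finset.sum_congr rfl fun i _ => Finset.sum_congr rfl fun j _ => ?_
    rw [hsym j i]
    ring
  have e5 : 0 ≤ ∑ i, ∑ j, (a i * a j * N i j) * ((U a k i - U a k j) * (U a l i - U a l j)) := by
    refine Finset.sum_nonneg fun i _ => Finset.sum_nonneg fun j _ => ?_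
    exact _root_.mul_nonneg (_root_.mul_nonneg (_root_.mul_nonneg (ha i).le (ha j).le) (hN i j))
      ((inv_U a ha k).mul_nonneg (inv_U a ha l) i j)
  have e6 : ∑ i, ∑ j, (a i * a j * N i j) * ((U a k i - U a k j) * (U a l i - U a l j))
      = ∑ i, ∑ j, (a i * a j * N i j) * (U a k i * U a l i - U a k i * U a l j)
        + ∑ i, ∑ j, (a i * a j * N i j) * (U a k j * U a l j - U a k j * U a l i) := by
    rw [← Finset.sum_add_distrib]
    refine Finset.sum_congr rfl fun i _ => ?_
    rw [← Finset.sum_add_distrib]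
    refine Finset.sum_congr rfl fun j _ => ?_
    ring
  have e7 : ∑ i, ∑ j, (a i * a j * N i j) * (U a k i * U a l i - U a k i * U a l j)
      = ∑ i, ∑ j, (a i * a j * N i j) * (U a k i * U a l i)
        - ∑ i, ∑ j, (a i * a j * N i j) * (U a k i * U a l j) := by
    rw [← Finset.sum_sub_distrib]
    refine Finset.sum_congr rfl fun i _ => ?_
    rw [← Finset.sum_sub_distrib]
    refine Finset.sum_congr rfl fun j _ => ?_
    ring
  rw [e2, e3]
  linarith

end Pool.Agent.W313.HL
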